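import Pool.Agent.Lib.MP_45a27d_nt.Vals
import Pool.Agent.Lib.MP_45a27d_nt.LowFin
import Pool.Agent.Lib.MP_45a27d_nt.UpFin

set_option autoImplicit false

namespace Pool.Agent.Results.MP_45a27d_nt.AngularExponent

open Polynomial Pool.Agent.Lib.MP_45a27d_nt

theorem log_inf_ge {U : Set ℂ} {b : ℝ} (hne : {x | ∃ α, IsVal U α x}.Nonempty)
    (h : ∀ P : ℤ[X], Adm U P → b * P.natDegree ≤ lM P) : b ≤ Real.log (L U) := by
  have h1 : Real.exp b ≤ L U := by
    refine le_csInf hne ?_
    rintro x ⟨α, hx⟩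
    obtain ⟨P, hP, -, h1x, hx⟩ := adm_of_val hx
    have hd : (0 : ℝ) < P.natDegree := by exact_mod_cast hP.2.1
    rw [← Real.le_log_iff_exp_le (by linarith), hx, le_div_iff₀ hd]
    exact h P hP
  exact (Real.le_log_iff_exp_le (lt_of_lt_of_le (Real.exp_pos b) h1)).mpr h1

theorem log_inf_le {U : Set ℂ} {b : ℝ} {P : ℤ[X]} (hP : Adm U P)
    (h : lM P ≤ b * P.natDegree) : Real.log (L U) ≤ b := by
  obtain ⟨α, hα⟩ := exists_root_of_adm hP
  have hmem : M P ^ (1 / (P.natDegree : ℝ)) ∈ {x | ∃ α, IsVal U α x} := ⟨α, val_of_adm hP hα⟩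
  have hb : ∀ x ∈ {x | ∃ α, IsVal U α x}, (1 : ℝ) ≤ x := by
    rintro x ⟨α, hx⟩
    obtain ⟨P, -, -, h1x, -⟩ := adm_of_val hx
    exact h1x
  have h1 : 1 ≤ L U := le_csInf ⟨_, hmem⟩ hb
  have h2 : L U ≤ M P ^ (1 / (P.natDegree : ℝ)) := csInf_le ⟨1, hb⟩ hmem
  have hd : (0 : ℝ) < P.natDegree := by exact_mod_cast hP.2.1
  calc Real.log (L U) ≤ Real.log (M P ^ (1 / (P.natDegree : ℝ))) :=
        Real.log_le_log (by linarith) h2
    _ = lM P / P.natDegree := log_val hP.1.ne_zero
    _ ≤ b := by rw [div_le_iff₀ hd]; exact h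

theorem result : ∃ c C : ℝ, 0 < c ∧ 0 < C ∧ ∀ θ : ℝ, 0 < θ → θ < Real.pi →
    c * (Real.pi - θ) ^ 2 / (1 + Real.log (Real.pi / (Real.pi - θ))) ^ 4 ≤ Real.log (L (V θ)) ∧
    Real.log (L (V θ)) ≤ C * (Real.pi - θ) ^ 2 := by
  obtain ⟨c, hc, hlow⟩ := low_bound
  refine ⟨c / 16, 8, by positivity, by norm_num, ?_⟩
  intro θ h0 hπ
  set δ : ℝ := Real.pi - θ with hδ
  have hδ0 : 0 < δ := by rw [hδ]; linarith
  have hδ4 : δ < 4 := by have := Real.pi_le_four; rw [hδ]; linarith
  have hθ : θ = Real.pi - δ := by rw [hδ]; ring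
  have hne : {x | ∃ α, IsVal (V θ) α x}.Nonempty := by
    obtain ⟨P, hP, _, _⟩ := golden h0
    obtain ⟨α, hα⟩ := exists_root_of_adm hP
    exact ⟨_, α, val_of_adm hP hα⟩
  constructor
  · refine log_inf_ge hne ?_
    intro P hP
    set ε : ℝ := min δ 1 with hε
    have hε0 : 0 < ε := lt_min hδ0 one_pos
    have hε1 : ε ≤ 1 := min_le_right _ _
    have hεδ : ε ≤ δ := min_le_left _ _
    have hP' : Adm (V (Real.pi - ε)) P := adm_mono (V_anti (by rw [hθ]; linarith)) hP
    have h1 := hlow ε hε0 hε1 P hP'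
    have hd : (0 : ℝ) < P.natDegree := by exact_mod_cast hP.2.1
    refine le_trans ?_ h1
    have hlog : Real.log (1 / ε) ≤ Real.log (Real.pi / δ) := by
      rcases le_total δ 1 with h | h
      · have : ε = δ := min_eq_left h
        rw [this]
        apply Real.log_le_log (by positivity)
        have : (1 : ℝ) ≤ Real.pi := by have := Real.pi_gt_three; linarith
        gcongr
      · have : ε = 1 := min_eq_right h
        rw [this]
        simp only [div_one, Real.log_one]
        apply Real.log_nonneg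
        rw [le_div_iff₀ hδ0, one_mul]
        rw [hδ]; linarith
    have hl0 : 0 ≤ Real.log (1 / ε) := Real.log_nonneg (by rw [le_div_iff₀ hε0]; linarith)
    have hε2 : δ ^ 2 / 16 ≤ ε ^ 2 := by
      rcases le_total δ 1 with h | h
      · have : ε = δ := min_eq_left h
        rw [this]; nlinarith
      · have : ε = 1 := min_eq_right h
        rw [this]; nlinarith
    refine mul_le_mul_of_nonneg_right ?_ hd.le
    have e1 : c / 16 * δ ^ 2 / (1 + Real.log (Real.pi / δ)) ^ 4 ≤
        c * ε ^ 2 / (1 + Real.log (Real.pi / δ)) ^ 4 := by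
      apply div_le_div_of_nonneg_right _ (by positivity)
      nlinarith
    refine le_trans e1 ?_
    apply div_le_div_of_nonneg_left (by positivity) (by positivity)
    gcongr
  · rcases le_total δ 1 with h | h
    · obtain ⟨P, hP, _, hl⟩ := up_bound hδ0 h 0
      rw [← hθ] at hP
      exact log_inf_le hP hl
    · obtain ⟨P, hP, hdeg, hl⟩ := golden h0
      refine log_inf_le hP ?_
      rw [hdeg]
      push_cast
      nlinarith

end Pool.Agent.Results.MP_45a27d_nt.AngularExponent
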