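import Pool.Agent.Lib.MP_45a27d_nt.Vals
import Pool.Agent.Lib.MP_45a27d_nt.LowFin
import Pool.Agent.Lib.MP_45a27d_nt.UpFin

set_option autoImplicit false

namespace Pool.Agent.Results.MP_45a27d_nt.AngularLimit

open Polynomial Pool.Agent.Lib.MP_45a27d_nt

theorem roots_finite {P : ℤ[X]} (hP : P ≠ 0) : {z : ℂ | aeval z P = 0}.Finite := by
  have hinj : Function.Injective (Int.castRingHom ℂ) := Int.cast_injective
  have h0 : P.map (Int.castRingHom ℂ) ≠ 0 := (Polynomial.map_ne_zero_iff hinj).mpr hP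
  refine Set.Finite.subset ((P.map (Int.castRingHom ℂ)).roots.toFinset.finite_toSet) ?_
  intro z hz
  simp only [Finset.mem_coe, Multiset.mem_toFinset]
  rw [mem_roots h0, IsRoot.def, eval_map]
  simpa [aeval_def] using hz

theorem natDegree_of_root {R : ℤ[X]} (hR : Irreducible R) (hRd : 0 < R.natDegree) {α : ℂ}
    (hRα : aeval α R = 0) : R.natDegree = (minpoly ℚ α).natDegree := by
  have hprim : R.IsPrimitive := hR.isPrimitive hRd.ne'
  have hirr : Irreducible (R.map (Int.castRingHom ℚ)) :=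
    (IsPrimitive.Int.irreducible_iff_irreducible_map_cast hprim).mp hR
  have hroot : aeval α (R.map (Int.castRingHom ℚ)) = 0 := by
    rw [aeval_def, eval₂_map]
    have : (algebraMap ℚ ℂ).comp (Int.castRingHom ℚ) = algebraMap ℤ ℂ := by
      ext; simp
    rw [this]
    simpa [aeval_def] using hRα
  have hm := minpoly.eq_of_irreducible hirr hroot
  have h3 : (minpoly ℚ α).natDegree = (R.map (Int.castRingHom ℚ)).natDegree := by
    rw [← hm, natDegree_mul_C]
    exact inv_ne_zero (leadingCoeff_ne_zero.mpr hirr.ne_zero)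
  rw [h3]
  exact (natDegree_map_eq_of_injective Int.cast_injective R).symm

theorem result : ∃ c C : ℝ, 0 < c ∧ 0 < C ∧ ∀ θ : ℝ, Real.pi - 1 ≤ θ → θ < Real.pi →
    {α : ℂ | ∃ x, IsVal (V θ) α x ∧ x < Real.exp (c * (Real.pi - θ) ^ 2)}.Finite ∧
    {α : ℂ | ∃ x, IsVal (V θ) α x ∧ x ≤ Real.exp (C * (Real.pi - θ) ^ 2)}.Infinite := by
  obtain ⟨c, hc, hlow⟩ := low_inf
  refine ⟨c, 8, hc, by norm_num, ?_⟩
  intro θ h0 hπ
  set δ : ℝ := Real.pi - θ with hδ
  have hδ0 : 0 < δ := by rw [hδ]; linarith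
  have hδ1 : δ ≤ 1 := by rw [hδ]; linarith
  have hθ : θ = Real.pi - δ := by rw [hδ]; ring
  constructor
  · obtain ⟨N, hN⟩ := hlow δ hδ0 hδ1
    set B : NNReal := Real.toNNReal (Real.exp (c * δ ^ 2 * N)) with hB
    have hBc : (B : ℝ) = Real.exp (c * δ ^ 2 * N) := Real.coe_toNNReal _ (Real.exp_pos _).le
    have hfin := Polynomial.finite_mahlerMeasure_le N B
    have hsub : {α : ℂ | ∃ x, IsVal (V θ) α x ∧ x < Real.exp (c * δ ^ 2)} ⊆
        ⋃ P ∈ {p : ℤ[X] | p.natDegree ≤ N ∧ (p.map (Int.castRingHom ℂ)).mahlerMeasure ≤ B} \ {0},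
          {z : ℂ | aeval z P = 0} := by
      rintro α ⟨x, hx, hlt⟩
      obtain ⟨P, hP, hα, h1x, hlog⟩ := adm_of_val hx
      have hd : (0 : ℝ) < P.natDegree := by exact_mod_cast hP.2.1
      have hlt' : lM P < c * δ ^ 2 * P.natDegree := by
        have : Real.log x < c * δ ^ 2 := by
          rw [← Real.log_exp (c * δ ^ 2)]
          exact Real.log_lt_log (by linarith) hlt
        rw [hlog, div_lt_iff₀ hd] at this
        exact this
      have hPN : P.natDegree ≤ N := by
        by_contra hcon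
        rw [not_le] at hcon
        have := hN P (by rw [← hθ]; exact hP) hcon.le
        linarith
      simp only [Set.mem_iUnion]
      refine ⟨P, ⟨⟨hPN, ?_⟩, ?_⟩, hα⟩
      · have hpos : 0 < (P.map (Int.castRingHom ℂ)).mahlerMeasure := by
          apply mahlerMeasure_pos_of_ne_zero
          exact (Polynomial.map_ne_zero_iff Int.cast_injective).mpr hP.1.ne_zero
        rw [hBc, ← Real.log_le_iff_le_exp hpos]
        have : (P.natDegree : ℝ) ≤ N := by exact_mod_cast hPN
        have h5 : lM P ≤ c * δ ^ 2 * N := by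
          have : c * δ ^ 2 * P.natDegree ≤ c * δ ^ 2 * N := by gcongr
          linarith
        exact h5
      · simp only [Set.mem_singleton_iff]
        exact hP.1.ne_zero
    refine Set.Finite.subset ?_ hsub
    refine Set.Finite.biUnion (hfin.subset Set.sdiff_subset) ?_
    rintro P ⟨-, hP0⟩
    exact roots_finite hP0
  · intro hfin
    set S := {α : ℂ | ∃ x, IsVal (V θ) α x ∧ x ≤ Real.exp (8 * δ ^ 2)} with hS
    obtain ⟨D, hD⟩ := (hfin.image (fun α => (minpoly ℚ α).natDegree)).bddAbove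
    obtain ⟨P, hP, hdeg, hl⟩ := up_bound hδ0 hδ1 (D + 1)
    rw [← hθ] at hP
    obtain ⟨α, hα⟩ := exists_root_of_adm hP
    have hd : (0 : ℝ) < P.natDegree := by exact_mod_cast hP.2.1
    have hval := val_of_adm hP hα
    have hmem : α ∈ S := by
      refine ⟨_, hval, ?_⟩
      have hpos : 0 < M P ^ (1 / (P.natDegree : ℝ)) :=
        Real.rpow_pos_of_pos (lt_of_lt_of_le one_pos (one_le_M hP.1.ne_zero)) _
      rw [← Real.log_le_iff_le_exp hpos, log_val hP.1.ne_zero, div_le_iff₀ hd]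
      exact hl
    have h1 := hD ⟨α, hmem, rfl⟩
    have h2 := natDegree_of_root hP.1 hP.2.1 hα
    simp only at h1
    omega

end Pool.Agent.Results.MP_45a27d_nt.AngularLimit
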